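import Pool.Agent.Helper61.QS.GoalsC

/-!
# Project QS (MP_0ebdb3_gt), packet CM: the core theorem for nonzero winding number
-/

set_option autoImplicit false

open Set NormedSpace Pool.Agent.Helper61.QS

namespace Pool.Agent.Helper23.QS

section gex

variable {R : Type*} [NormedRing R] [NormedAlgebra ℝ R] [CompleteSpace R] [StarRing R]
  [ContinuousStar R] [StarModule ℝ R]

theorem gex_add (A : R) (s t : ℝ) : exp ((s + t) • A) = exp (s • A) * exp (t • A) := by
  let _ : NormedAlgebra ℚ R := .restrictScalars ℚ ℝ R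
  rw [add_smul]
  exact exp_add_of_commute (((Commute.refl A).smul_left s).smul_right t)

theorem gex_zero (A : R) : exp ((0 : ℝ) • A) = 1 := by rw [zero_smul, exp_zero]

theorem gex_neg_mul (A : R) (t : ℝ) : exp (-t • A) * exp (t • A) = 1 := by
  rw [← gex_add, neg_add_cancel, gex_zero]

theorem gex_mul_neg (A : R) (t : ℝ) : exp (t • A) * exp (-t • A) = 1 := by
  rw [← gex_add, add_neg_cancel, gex_zero]

theorem gex_cont (A : R) : Continuous fun t : ℝ => exp (t • A) := by
  let _ : NormedAlgebra ℚ R := .restrictScalars ℚ ℝ R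
  exact exp_continuous.comp (by fun_prop)

theorem gex_comm {A x : R} (h : x * A = A * x) (t : ℝ) :
    x * exp (t • A) = exp (t • A) * x := by
  have h1 : Commute x (t • A) := (show Commute x A from h).smul_right t
  exact h1.exp_right

theorem gex_star {A : R} (h : star A = -A) (t : ℝ) : star (exp (t • A)) = exp (-t • A) := by
  rw [star_exp, star_smul, h, smul_neg, neg_smul]
  simp

theorem gex_unitary {A : R} (h : star A = -A) (t : ℝ) : exp (t • A) ∈ unitary R := by
  rw [Unitary.mem_iff, gex_star h]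
  exact ⟨gex_neg_mul A t, gex_mul_neg A t⟩

/-- the exponential of a conjugate -/
theorem gex_conj {A W V : R} (h1 : V * W = 1) (h2 : W * V = 1) (t : ℝ) :
    exp (t • (W * A * V)) = W * exp (t • A) * V := by
  let _ : NormedAlgebra ℚ R := .restrictScalars ℚ ℝ R
  have h3 : exp (W * (t • A) * V) = W * exp (t • A) * V :=
    exp_units_conj (⟨W, V, h2, h1⟩ : Rˣ) (t • A)
  rw [← h3, mul_smul_comm, smul_mul_assoc]

theorem gex_split {X Y A : R} (hA : X = Y + A) (hc : A * Y = Y * A) (t : ℝ) :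
    exp (t • X) = exp (t • Y) * exp (t • A) := by
  let _ : NormedAlgebra ℚ R := .restrictScalars ℚ ℝ R
  rw [hA, smul_add]
  exact exp_add_of_commute (((show Commute Y A from hc.symm).smul_left t).smul_right t)

end gex

section ex

variable {k : ℕ}

theorem ex_add (A : En k) (s t : ℝ) : exp ((s + t) • A) = exp (s • A) * exp (t • A) :=
  gex_add A s t

theorem ex_zero (A : En k) : exp ((0 : ℝ) • A) = 1 := gex_zero A

theorem ex_neg_mul (A : En k) (t : ℝ) : exp (-t • A) * exp (t • A) = 1 := gex_neg_mul A t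

theorem ex_mul_neg (A : En k) (t : ℝ) : exp (t • A) * exp (-t • A) = 1 := gex_mul_neg A t

theorem ex_cont (A : En k) : Continuous fun t : ℝ => exp (t • A) := gex_cont A

theorem ex_comm {A x : En k} (h : x * A = A * x) (t : ℝ) :
    x * exp (t • A) = exp (t • A) * x := gex_comm h t

theorem ex_star {A : En k} (h : star A = -A) (t : ℝ) : star (exp (t • A)) = exp (-t • A) :=
  gex_star (R := En k) (A := A) h t

theorem ex_unitary {A : En k} (h : star A = -A) (t : ℝ) : exp (t • A) ∈ unitary (En k) :=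
  gex_unitary h t

theorem ex_conj {A W V : En k} (h1 : V * W = 1) (h2 : W * V = 1) (t : ℝ) :
    exp (t • (W * A * V)) = W * exp (t • A) * V := gex_conj h1 h2 t

theorem ex_split {X Y A : En k} (hA : X = Y + A) (hc : A * Y = Y * A) (t : ℝ) :
    exp (t • X) = exp (t • Y) * exp (t • A) := gex_split hA hc t

end ex

section alg

variable {R : Type*} [Monoid R]

theorem rel_core {eB e1 ws e2 eA' eA y : R} (h : eA' * eA = 1) (h1 : y * e1 = e1 * y)
    (h2 : y * ws = ws * y) (h3 : y * e2 = e2 * y) :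
    (eB * e1) * ws * (e2 * eA') * (eA * y) = (eB * y) * (e1 * ws * e2) := by
  calc (eB * e1) * ws * (e2 * eA') * (eA * y)
      = eB * e1 * ws * e2 * (eA' * eA) * y := by simp only [mul_assoc]
    _ = eB * e1 * ws * (e2 * y) := by rw [h, mul_one]; simp only [mul_assoc]
    _ = eB * e1 * (ws * y) * e2 := by rw [← h3]; simp only [mul_assoc]
    _ = eB * (e1 * y) * ws * e2 := by rw [← h2]; simp only [mul_assoc]
    _ = _ := by rw [← h1]; simp only [mul_assoc]

theorem per_core {e1 us ws u e2 : R} (h : us * u = 1) (h1 : us * ws = ws * us) :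
    (e1 * us) * ws * (u * e2) = e1 * ws * e2 := by
  calc (e1 * us) * ws * (u * e2) = e1 * (us * ws) * u * e2 := by simp only [mul_assoc]
    _ = e1 * ws * (us * u) * e2 := by rw [h1]; simp only [mul_assoc]
    _ = _ := by rw [h, mul_one]

theorem comm_of_conj {W V E P : R} (h1 : V * W = 1) (h : (W * E * V) * P = P * (W * E * V)) :
    E * (V * P * W) = V * P * W * E := by
  calc E * (V * P * W) = (V * W) * E * (V * P * W) := by rw [h1, one_mul]
    _ = V * ((W * E * V) * P) * W := by simp only [mul_assoc]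
    _ = V * (P * (W * E * V)) * W := by rw [h]
    _ = V * P * W * E * (V * W) := by simp only [mul_assoc]
    _ = _ := by rw [h1, mul_one]

theorem last_core {W V P fA fB gB gA : R} (h1 : V * W = 1)
    (h : (W * fB * V) * P = P * (W * fB * V))
    (h2 : fB * gB = 1) (h3 : W * V = 1) (h4 : fA * P = P * fA) (h5 : fA * gA = 1) :
    (fA * W * fB) * (V * P * W) * (gB * V * gA) = P := by
  calc (fA * W * fB) * (V * P * W) * (gB * V * gA)
      = fA * ((W * fB * V) * P) * W * gB * V * gA := by simp only [mul_assoc]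
    _ = fA * P * W * fB * (V * W) * gB * V * gA := by rw [h]; simp only [mul_assoc]
    _ = fA * P * W * (fB * gB) * V * gA := by rw [h1, mul_one]; simp only [mul_assoc]
    _ = (fA * P) * (W * V) * gA := by rw [h2, mul_one]; simp only [mul_assoc]
    _ = P * (fA * gA) := by rw [h3, mul_one, h4, mul_assoc]
    _ = P := by rw [h5, mul_one]

end alg

/-- The packet `CM`. -/
theorem goalCM (hCD : G_CD) (hCE : G_CE) (hCP : G_CP) (hCW : G_CW) (hCLB : G_CLB)
    (hPER : G_PER) : G_CM := by
  intro k m hN hS Ψ hm L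
  have hpi : (2 * Real.pi : ℝ) ≠ 0 := by positivity
  have hmR : (m : ℝ) ≠ 0 := by exact_mod_cast hm
  obtain ⟨XN, XS, hXN, hXS, hΨ, hK, hKΨ⟩ := hCD k m hN hS Ψ hm L
  obtain ⟨Y0, hY0, hY0Ψ, hc⟩ := hCE k m Ψ XN XS hm hXN hXS L.uΨ hΨ
  obtain ⟨A, hA⟩ : ∃ A, A = XN - Y0 := ⟨_, rfl⟩
  obtain ⟨B, hB⟩ : ∃ B, B = XS - Y0 := ⟨_, rfl⟩
  rw [← hA, ← hB] at hc
  have hAs : star A = -A := by
    rw [hA, star_sub, hXN, hY0]
    abel
  have hBs : star B = -B := by
    rw [hB, star_sub, hXS, hY0]
    abel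
  have hAY : A * Y0 = Y0 * A := (hc Y0 hY0Ψ).1
  have hBY : B * Y0 = Y0 * B := (hc Y0 hY0Ψ).2
  have hXNA : XN = Y0 + A := by rw [hA]; abel
  have hXSB : XS = Y0 + B := by rw [hB]; abel
  have eN : ∀ t : ℝ, exp (t • XN) = exp (t • Y0) * exp (t • A) := ex_split hXNA hAY
  have eS : ∀ t : ℝ, exp (t • XS) = exp (t • Y0) * exp (t • B) := ex_split hXSB hBY
  have eS' : ∀ t : ℝ, exp (t • XS) = exp (t • B) * exp (t • Y0) := fun t => by
    rw [eS]
    exact (ex_comm (ex_comm hBY.symm t).symm t).symm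
  have eN' : ∀ t : ℝ, exp (t • XN) = exp (t • A) * exp (t • Y0) := fun t => by
    rw [eN]
    exact (ex_comm (ex_comm hAY.symm t).symm t).symm
  -- the path Ψ in terms of A and B
  have hΨ2 : ∀ β : ℝ, Ψ β = exp (-(β / m) • B) * exp ((β / m) • A) := by
    intro β
    rw [hΨ, eS', eN]
    calc exp (-(β / ↑m) • B) * exp (-(β / ↑m) • Y0) * (exp ((β / ↑m) • Y0) * exp ((β / ↑m) • A))
        = exp (-(β / ↑m) • B) * (exp (-(β / ↑m) • Y0) * exp ((β / ↑m) • Y0)) *
          exp ((β / ↑m) • A) := by simp only [mul_assoc]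
      _ = _ := by rw [ex_neg_mul, mul_one]
  -- the commuting part
  obtain ⟨K, hKdef⟩ : ∃ K : ℝ → En k, K = fun α => exp (-α • XN) * hN α := ⟨_, rfl⟩
  obtain ⟨k', hk'⟩ : ∃ k' : ℝ → En k, k' = fun α => exp (α • Y0) * K α := ⟨_, rfl⟩
  have hKu : ∀ α, K α ∈ unitary (En k) := fun α => by
    rw [hKdef]
    exact Submonoid.mul_mem _ (ex_unitary hXN _) (L.uN α)
  have hk'u : ∀ α, k' α ∈ unitary (En k) := fun α => by
    rw [hk']
    exact Submonoid.mul_mem _ (ex_unitary hY0 _) (hKu α)
  have hKc : ∀ α β, Ψ β * K α = K α * Ψ β := fun α β => by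
    rw [hKdef]
    exact hKΨ α β
  have hk'c : ∀ α β, Ψ β * k' α = k' α * Ψ β := fun α β => by
    rw [hk']
    show Ψ β * (exp (α • Y0) * K α) = exp (α • Y0) * K α * Ψ β
    rw [← mul_assoc, ex_comm (hY0Ψ β).symm α, mul_assoc, hKc, mul_assoc]
  have hk'N : ∀ α, hN α = exp (α • A) * k' α := fun α => by
    rw [hk', hKdef]
    show hN α = exp (α • A) * (exp (α • Y0) * (exp (-α • XN) * hN α))
    rw [← mul_assoc, ← eN', ← mul_assoc, ex_mul_neg, one_mul]
  have hk'S : ∀ α, hS α = exp (α • B) * k' α := fun α => by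
    rw [hk', hKdef]
    show hS α = exp (α • B) * (exp (α • Y0) * (exp (-α • XN) * hN α))
    rw [hK, ← mul_assoc, ← eS', ← mul_assoc, ex_mul_neg, one_mul]
  have hk'cont : Continuous k' := by
    rw [hk', hKdef]
    have c1 := ex_cont Y0
    have c2 : Continuous fun α : ℝ => exp (-α • XN) := (ex_cont XN).comp continuous_neg
    exact c1.mul (c2.mul L.cN)
  have hk'0 : k' 0 = 1 := by
    have h1 := hk'N 0
    rw [L.N0, ex_zero, one_mul] at h1
    exact h1.symm
  -- the monodromy
  obtain ⟨u, hu⟩ : ∃ u, u = exp ((2 * Real.pi / m) • A) := ⟨_, rfl⟩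
  have huB : u = exp ((2 * Real.pi / m) • B) := by
    have h1 : Ψ (2 * Real.pi) = 1 := by
      have h2 := L.pΨ 0
      rw [zero_add, L.Ψ0] at h2
      exact h2
    rw [hΨ2] at h1
    calc u = (exp ((2 * Real.pi / m) • B) * exp (-(2 * Real.pi / m) • B)) * u := by
          rw [ex_mul_neg, one_mul]
      _ = exp ((2 * Real.pi / m) • B) * (exp (-(2 * Real.pi / m) • B) *
          exp ((2 * Real.pi / m) • A)) := by rw [hu, mul_assoc]
      _ = _ := by rw [h1, mul_one]
  have huu : u ∈ unitary (En k) := by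
    rw [hu]
    exact ex_unitary hAs _
  -- the path p
  obtain ⟨p, hp⟩ : ∃ p : ℝ → En k, p = fun t => k' (2 * Real.pi * t) := ⟨_, rfl⟩
  have hpUC : ∀ t, p t ∈ UC (range Ψ) := fun t => by
    rw [hp]
    refine ⟨hk'u _, ?_⟩
    rintro _ ⟨β, rfl⟩
    exact hk'c _ β
  have hpcont : Continuous p := by
    rw [hp]
    exact hk'cont.comp (by fun_prop)
  have hp0 : p 0 = 1 := by
    rw [hp]
    show k' (2 * Real.pi * 0) = 1
    rw [mul_zero, hk'0]
  obtain ⟨a, q, ha, ⟨H, Hc, Hm, Hst, Hend⟩, hq⟩ :=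
    hCP k (range Ψ) p ⟨hpcont.continuousOn, fun t _ => hpUC t⟩ hp0
  have haΨ : ∀ β, a * Ψ β = Ψ β * a := fun β => (ha.2 _ ⟨β, rfl⟩).symm
  have haA : A * a = a * A := (hc a haΨ).1
  have haB : B * a = a * B := (hc a haΨ).2
  have m0 : (0 : ℝ) ∈ Icc (0 : ℝ) 1 := ⟨le_rfl, zero_le_one⟩
  have m1 : (1 : ℝ) ∈ Icc (0 : ℝ) 1 := ⟨zero_le_one, le_rfl⟩
  have mf : ∀ x : ℝ, Int.fract x ∈ Icc (0 : ℝ) 1 := fun x =>
    ⟨Int.fract_nonneg x, (Int.fract_lt_one x).le⟩
  -- the homotopy κ
  obtain ⟨G, hG⟩ : ∃ G : ℝ → ℝ → En k, G = fun s t => star (p t) * H s t := ⟨_, rfl⟩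
  have hG0 : ∀ s ∈ Icc (0 : ℝ) 1, G s 0 = 1 := fun s hs => by
    rw [hG]
    show star (p 0) * H s 0 = 1
    rw [(Hend s hs).1]
    exact UC.star_mul (hpUC 0)
  have hG1 : ∀ s ∈ Icc (0 : ℝ) 1, G s 1 = 1 := fun s hs => by
    rw [hG]
    show star (p 1) * H s 1 = 1
    rw [(Hend s hs).2]
    exact UC.star_mul (hpUC 1)
  have hGUC : ∀ s ∈ Icc (0 : ℝ) 1, ∀ t ∈ Icc (0 : ℝ) 1, G s t ∈ UC (range Ψ) :=
    fun s hs t ht => by
      rw [hG]
      exact UC.mul_mem (UC.star_mem (hpUC t)) (Hm s hs t ht)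
  have hGc : ContinuousOn (fun z : ℝ × ℝ => G z.1 z.2) (Icc (0 : ℝ) 1 ×ˢ Icc (0 : ℝ) 1) := by
    rw [hG]
    have c1 : Continuous fun z : ℝ × ℝ => star (p z.2) :=
      (continuous_star.comp (hpcont.comp continuous_snd))
    exact c1.continuousOn.mul Hc
  obtain ⟨κ, hκ⟩ : ∃ κ : ℝ → ℝ → En k,
    κ = fun s α => G s (Int.fract (α / (2 * Real.pi))) := ⟨_, rfl⟩
  have hκc : ContinuousOn (fun z : ℝ × ℝ => κ z.1 z.2) (Icc (0 : ℝ) 1 ×ˢ univ) := by
    rw [hκ]
    exact hPER k G hGc fun s hs => by rw [hG0 s hs, hG1 s hs]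
  have hκUC : ∀ s ∈ Icc (0 : ℝ) 1, ∀ α, κ s α ∈ UC (range Ψ) := fun s hs α => by
    rw [hκ]
    exact hGUC s hs _ (mf _)
  have hfract : ∀ x : ℝ, Int.fract ((x + 2 * Real.pi) / (2 * Real.pi)) =
      Int.fract (x / (2 * Real.pi)) := fun x => by
    rw [add_div, div_self hpi, Int.fract_add_one]
  -- reduction to one period
  have hper : ∀ {f : ℝ → En k}, (∀ x, f (x + 2 * Real.pi) = f x) → ∀ (x : ℝ) (n : ℤ),
      f (x + 2 * Real.pi * n) = f x := by
    intro f hf x n
    have h1 : Function.Periodic f (2 * Real.pi) := hf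
    have h2 := h1.int_mul n x
    rw [mul_comm]
    exact h2
  have hdec : ∀ α : ℝ, α = 2 * Real.pi * Int.fract (α / (2 * Real.pi)) +
      2 * Real.pi * (⌊α / (2 * Real.pi)⌋ : ℤ) := by
    intro α
    rw [← mul_add, add_comm, Int.floor_add_fract]
    field_simp
  have hNκ : ∀ α : ℝ, hN α * κ 1 α =
      exp ((2 * Real.pi * Int.fract (α / (2 * Real.pi))) • A) *
        q (Int.fract (α / (2 * Real.pi))) := by
    intro α
    set f := Int.fract (α / (2 * Real.pi)) with hf
    have h1 : hN α = hN (2 * Real.pi * f) := by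
      conv_lhs => rw [hdec α]
      exact hper L.pN _ _
    have h2 : κ 1 α = star (p f) * q f := by
      rw [hκ, hG]
      show star (p f) * H 1 f = _
      rw [(Hst f (mf _)).2]
    have h3 : k' (2 * Real.pi * f) = p f := by rw [hp]
    rw [h1, hk'N, h2, h3]
    calc exp ((2 * Real.pi * f) • A) * p f * (star (p f) * q f)
        = exp ((2 * Real.pi * f) • A) * (p f * star (p f)) * q f := by simp only [mul_assoc]
      _ = _ := by rw [UC.mul_star (hpUC f), mul_one]
  have hSκ : ∀ α : ℝ, hS α * κ 1 α =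
      exp ((2 * Real.pi * Int.fract (α / (2 * Real.pi))) • B) *
        q (Int.fract (α / (2 * Real.pi))) := by
    intro α
    set f := Int.fract (α / (2 * Real.pi)) with hf
    have h1 : hS α = hS (2 * Real.pi * f) := by
      conv_lhs => rw [hdec α]
      exact hper L.pS _ _
    have h2 : κ 1 α = star (p f) * q f := by
      rw [hκ, hG]
      show star (p f) * H 1 f = _
      rw [(Hst f (mf _)).2]
    have h3 : k' (2 * Real.pi * f) = p f := by rw [hp]
    rw [h1, hk'S, h2, h3]
    calc exp ((2 * Real.pi * f) • B) * p f * (star (p f) * q f)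
        = exp ((2 * Real.pi * f) • B) * (p f * star (p f)) * q f := by simp only [mul_assoc]
      _ = _ := by rw [UC.mul_star (hpUC f), mul_one]
  -- the path w
  have huA : u * A = A * u := by
    rw [hu]
    exact (ex_comm (x := A) (A := A) rfl _).symm
  have huB' : u * B = B * u := by
    rw [huB]
    exact (ex_comm (x := B) (A := B) rfl _).symm
  obtain ⟨w, wc, w0, wm, wAB⟩ := hCW k {u, a} A B hAs hBs
    (by
      rintro s (rfl | rfl)
      · exact huA
      · exact haA.symm)
    (by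
      rintro s (rfl | rfl)
      · exact huB'
      · exact haB.symm)
  have wu : ∀ s, u * w s = w s * u := fun s => (wm s).2 u (Or.inl rfl)
  have wa : ∀ s, a * w s = w s * a := fun s => (wm s).2 a (Or.inr rfl)
  have wU : ∀ s, w s ∈ unitary (En k) := fun s => (wm s).1
  have wsu : ∀ s, star u * star (w s) = star (w s) * star u := fun s => by
    rw [← star_mul, ← star_mul, wu]
  have was : ∀ s, a * star (w s) = star (w s) * a := fun s => comm_star (wU s) (wa s)
  -- the homotopy Φ
  obtain ⟨Φ, hΦ⟩ : ∃ Φ : ℝ → ℝ → En k,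
    Φ = fun s β => exp (-(β / (m : ℝ)) • B) * star (w s) * exp ((β / (m : ℝ)) • A) := ⟨_, rfl⟩
  have hΦc : Continuous (fun z : ℝ × ℝ => Φ z.1 z.2) := by
    rw [hΦ]
    have c1 : Continuous fun z : ℝ × ℝ => exp (-(z.2 / m) • B) :=
      (ex_cont B).comp (by fun_prop)
    have c2 : Continuous fun z : ℝ × ℝ => exp ((z.2 / m) • A) :=
      (ex_cont A).comp (by fun_prop)
    have c3 : Continuous fun z : ℝ × ℝ => star (w z.1) :=
      continuous_star.comp (wc.comp continuous_fst)
    exact (c1.mul c3).mul c2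
  have hΦu : ∀ s β, Φ s β ∈ unitary (En k) := fun s β => by
    rw [hΦ]
    exact Submonoid.mul_mem _ (Submonoid.mul_mem _ (ex_unitary hBs _) (Unitary.star_mem (wU s)))
      (ex_unitary hAs _)
  have hΦp : ∀ s x, Φ s (x + 2 * Real.pi) = Φ s x := by
    intro s x
    rw [hΦ]
    show exp (-((x + 2 * Real.pi) / m) • B) * star (w s) * exp (((x + 2 * Real.pi) / m) • A) =
      exp (-(x / m) • B) * star (w s) * exp ((x / m) • A)
    have h1 : exp (-((x + 2 * Real.pi) / m) • B) = exp (-(x / m) • B) * star u := by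
      rw [huB, ex_star hBs, ← ex_add]
      congr 2
      ring
    have h2 : exp (((x + 2 * Real.pi) / m) • A) = u * exp ((x / m) • A) := by
      rw [hu, ← ex_add]
      congr 2
      ring
    rw [h1, h2]
    exact per_core (Unitary.mem_iff.1 huu).1 (wsu s)
  -- commutation of q with A, B, w
  have hqA : ∀ f ∈ Icc (0 : ℝ) 1, A * q f = q f * A := fun f hf => hq f hf A haA
  have hqB : ∀ f ∈ Icc (0 : ℝ) 1, B * q f = q f * B := fun f hf => hq f hf B haB
  have hqw : ∀ f ∈ Icc (0 : ℝ) 1, ∀ s, star (w s) * q f = q f * star (w s) :=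
    fun f hf s => hq f hf _ (was s).symm
  have hrel : ∀ s α β, Φ s (β - m * α) * (hN α * κ 1 α) = (hS α * κ 1 α) * Φ s β := by
    intro s α β
    rw [hNκ, hSκ]
    set f := Int.fract (α / (2 * Real.pi)) with hf
    have hfm : f ∈ Icc (0 : ℝ) 1 := mf _
    have h1 : Φ s (β - m * α) = Φ s (β - m * (2 * Real.pi * f)) := by
      have h2 : β - m * α = β - m * (2 * Real.pi * f) +
          2 * Real.pi * ((-(m * ⌊α / (2 * Real.pi)⌋) : ℤ) : ℝ) := by
        conv_lhs => rw [hdec α]
        push_cast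
        ring
      rw [h2]
      exact hper (hΦp s) _ _
    rw [h1, hΦ]
    show exp (-((β - m * (2 * Real.pi * f)) / m) • B) * star (w s) *
      exp (((β - m * (2 * Real.pi * f)) / m) • A) * (exp ((2 * Real.pi * f) • A) * q f) =
      exp ((2 * Real.pi * f) • B) * q f * (exp (-(β / m) • B) * star (w s) * exp ((β / m) • A))
    have h3 : exp (-((β - m * (2 * Real.pi * f)) / m) • B) =
        exp ((2 * Real.pi * f) • B) * exp (-(β / m) • B) := by
      rw [← ex_add]
      congr 2
      field_simp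
      ring
    have h4 : exp (((β - m * (2 * Real.pi * f)) / m) • A) =
        exp ((β / m) • A) * exp (-(2 * Real.pi * f) • A) := by
      rw [← ex_add]
      congr 2
      field_simp
      ring
    rw [h3, h4]
    exact rel_core (ex_neg_mul A _) (ex_comm (hqB f hfm).symm _) (hqw f hfm s).symm
      (ex_comm (hqA f hfm).symm _)
  -- the splitting
  obtain ⟨W, hW⟩ : ∃ W, W = w 1 := ⟨_, rfl⟩
  have hWu : W ∈ unitary (En k) := by
    rw [hW]
    exact wU 1
  have hVW : star W * W = 1 := (Unitary.mem_iff.1 hWu).1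
  have hWV : W * star W = 1 := (Unitary.mem_iff.1 hWu).2
  obtain ⟨A', hA'⟩ : ∃ A', A' = W * B * star W := ⟨_, rfl⟩
  have hA's : star A' = -A' := by
    rw [hA', star_mul, star_mul, star_star, hBs]
    simp only [neg_mul, mul_neg, mul_assoc]
  have hA'A : A' * A = A * A' := by
    rw [hA', hW]
    exact wAB
  have haW : a * W = W * a := by
    rw [hW]
    exact wa 1
  have haV : a * star W = star W * a := by
    rw [hW]
    exact was 1
  have haA' : A' * a = a * A' := by
    rw [hA']
    calc W * B * star W * a = W * B * (star W * a) := by simp only [mul_assoc]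
      _ = W * (B * a) * star W := by rw [← haV]; simp only [mul_assoc]
      _ = (W * a) * B * star W := by rw [haB]; simp only [mul_assoc]
      _ = _ := by rw [← haW]; simp only [mul_assoc]
  have haU : a ∈ unitary (En k) := ha.1
  have haas : a * star a = star a * a := comm_star haU rfl
  obtain ⟨N, π, hπ1, hπ2, hπ3, hπ4⟩ := hCLB k {A, A', a} (by
    have sk : ∀ x y : En k, star y = -y → x * y = y * x →
        x * y = y * x ∧ x * star y = star y * x := fun x y h1 h2 =>
      ⟨h2, by rw [h1, mul_neg, neg_mul, h2]⟩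
    rintro x (rfl | rfl | rfl) y (rfl | rfl | rfl)
    · exact sk _ _ hAs rfl
    · exact sk _ _ hA's hA'A.symm
    · exact ⟨haA, comm_star haU haA⟩
    · exact sk _ _ hAs hA'A
    · exact sk _ _ hA's rfl
    · exact ⟨haA', comm_star haU haA'⟩
    · exact sk _ _ hAs haA.symm
    · exact sk _ _ hA's haA'.symm
    · exact ⟨rfl, haas⟩)
  have πA : ∀ j, A * π j = π j * A := fun j => (hπ1 j).2.2 A (Or.inl rfl)
  have πA' : ∀ j, A' * π j = π j * A' := fun j => (hπ1 j).2.2 A' (Or.inr (Or.inl rfl))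
  have πa : ∀ j, a * π j = π j * a := fun j => (hπ1 j).2.2 a (Or.inr (Or.inr rfl))
  have hAe : ∀ t : ℝ, W * exp (t • B) * star W = exp (t • A') := fun t => by
    rw [hA']
    exact (ex_conj hVW hWV t).symm
  have hlast : ∀ j β, star (Φ 1 β) * (star W * π j * W) * Φ 1 β = π j := by
    intro j β
    have e1 : Φ 1 β = exp (-(β / m) • B) * star W * exp ((β / m) • A) := by
      rw [hΦ, hW]
    have e2 : star (Φ 1 β) = exp (-(β / m) • A) * W * exp ((β / m) • B) := by
      rw [e1, star_mul, star_mul, star_star, ex_star hAs, ex_star hBs, neg_neg, mul_assoc]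
    rw [e2, e1]
    refine last_core hVW ?_ (ex_mul_neg B _) hWV ?_ (ex_neg_mul A _)
    · rw [hAe]
      exact (ex_comm (πA' j).symm _).symm
    · exact (ex_comm (πA j).symm _).symm
  refine ⟨κ, Φ, hκc, hΦc.continuousOn, ?_, ?_, ?_, ?_, ?_, ?_, N,
    fun j => star W * π j * W, ?_, ?_, ?_, ?_⟩
  · intro s hs x
    refine ⟨(hκUC s hs x).1, hΦu s x, ?_, hΦp s x⟩
    rw [hκ]
    show G s (Int.fract ((x + 2 * Real.pi) / (2 * Real.pi))) = G s (Int.fract (x / (2 * Real.pi)))
    rw [hfract]
  · intro α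
    rw [hκ, hG]
    show star (p _) * H 0 _ = 1
    rw [(Hst _ (mf _)).1]
    exact UC.star_mul (hpUC _)
  · intro s hs
    rw [hκ]
    show G s (Int.fract (0 / (2 * Real.pi))) = 1
    rw [zero_div, Int.fract_zero]
    exact hG0 s hs
  · intro β
    rw [hΨ2, hΦ]
    show exp (-(β / m) • B) * star (w 0) * exp ((β / m) • A) = _
    rw [w0, star_one, mul_one]
  · intro s hs α β
    exact (hκUC s hs α).2 _ ⟨β, rfl⟩
  · intro s _ α β
    exact hrel s α β
  · intro j
    obtain ⟨h1, h2, -⟩ := hπ1 j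
    refine ⟨?_, ?_, ?_, ?_⟩
    · calc star W * π j * W * (star W * π j * W) = star W * π j * (W * star W) * π j * W := by
            simp only [mul_assoc]
        _ = star W * (π j * π j) * W := by rw [hWV, mul_one]; simp only [mul_assoc]
        _ = _ := by rw [h1]
    · rw [star_mul, star_mul, star_star, h2, ← mul_assoc]
    · intro α
      rw [hSκ]
      have hf := mf (α / (2 * Real.pi))
      have h3 : star W * q (Int.fract (α / (2 * Real.pi))) =
          q (Int.fract (α / (2 * Real.pi))) * star W := by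
        rw [hW]
        exact hqw _ hf 1
      have h4 : π j * q (Int.fract (α / (2 * Real.pi))) =
          q (Int.fract (α / (2 * Real.pi))) * π j := hq _ hf _ (πa j).symm
      refine comm_of_conj hVW ?_
      have h5 : W * (exp ((2 * Real.pi * Int.fract (α / (2 * Real.pi))) • B) *
          q (Int.fract (α / (2 * Real.pi)))) * star W =
          exp ((2 * Real.pi * Int.fract (α / (2 * Real.pi))) • A') *
            q (Int.fract (α / (2 * Real.pi))) := by
        rw [← hAe]
        calc _ = W * exp ((2 * Real.pi * Int.fract (α / (2 * Real.pi))) • B) *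
              (q (Int.fract (α / (2 * Real.pi))) * star W) := by simp only [mul_assoc]
          _ = _ := by rw [← h3]; simp only [mul_assoc]
      rw [h5, mul_assoc, ← h4, ← mul_assoc, ← mul_assoc, ex_comm (πA' j).symm]
    · intro β
      rw [hlast, hlast]
  · intro i j hij
    show star W * π i * W * (star W * π j * W) = 0
    calc star W * π i * W * (star W * π j * W) = star W * π i * (W * star W) * π j * W := by
          simp only [mul_assoc]
      _ = star W * (π i * π j) * W := by rw [hWV, mul_one]; simp only [mul_assoc]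
      _ = 0 := by rw [hπ2 i j hij, mul_zero, zero_mul]
  · rw [← Finset.sum_mul, ← Finset.mul_sum, hπ3, mul_one, hVW]
  · intro j
    have h1 : tr (star W * π j * W) = tr (π j) := by
      rw [mul_assoc, tr_mul_comm, mul_assoc, hWV, mul_one]
    show tr (star W * π j * W) = 2 ∨ (tr (star W * π j * W) = 1 ∧ j.val = 0)
    rw [h1]
    exact hπ4 j

end Pool.Agent.Helper23.QS
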