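import Pool.Agent.Helper61.QS.GoalsH

/-!
# Project QS (MP_0ebdb3_gt), packet HOL: the output of the ODE part
-/

set_option autoImplicit false

open Set Pool.Agent.Helper61.QS

namespace Pool.Agent.Helper23.QS

/-- uniqueness -/
theorem uniq (h2 : G_OD2) {n : ℕ} {cc U Y : ℝ → En n} (hs : ∀ t, star (cc t) = -cc t)
    (hU0 : U 0 = 1) (hY0 : Y 0 = 1) (hU : ∀ t, HasDerivAt U (cc t * U t) t)
    (hY : ∀ t, HasDerivAt Y (cc t * Y t) t) (t : ℝ) : Y t = U t := by
  have h := (h2 n cc U hs hU0 hU).2 Y hY t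
  rw [h, hY0, mul_one]

/-- intertwining -/
theorem intertw (h2 : G_OD2) {n : ℕ} {cc U e : ℝ → En n} (hs : ∀ t, star (cc t) = -cc t)
    (hU0 : U 0 = 1) (hU : ∀ t, HasDerivAt U (cc t * U t) t)
    (he : ∀ t, HasDerivAt e (cc t * e t - e t * cc t) t) (t : ℝ) : e t * U t = U t * e 0 := by
  have h := (h2 n cc U hs hU0 hU).2 (fun t => e t * U t - U t * e 0) (fun t => by
    have h1 := ((he t).mul (hU t)).sub ((hU t).mul_const (e 0))
    have h3 : (cc t * e t - e t * cc t) * U t + e t * (cc t * U t) - cc t * U t * e 0 =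
        cc t * (e t * U t - U t * e 0) := by noncomm_ring
    rw [h3] at h1
    exact h1) t
  have h4 : e 0 * U 0 - U 0 * e 0 = 0 := by rw [hU0, one_mul, mul_one, sub_self]
  have h5 : e t * U t - U t * e 0 = U t * (e 0 * U 0 - U 0 * e 0) := h
  rw [h4, mul_zero, sub_eq_zero] at h5
  exact h5

theorem derR {n : ℕ} {f : R4 → En n} (hf : ContDiff ℝ 1 f) (z : ℝ × ℝ × ℝ) (r : ℝ) :
    HasDerivAt (fun t : ℝ => f (t, z)) (fderiv ℝ f (r, z) (1, 0, 0, 0)) r := by
  have h1 : HasFDerivAt f (fderiv ℝ f (r, z)) (r, z) :=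
    ((hf.differentiable (by norm_num)) (r, z)).hasFDerivAt
  have h2 : HasDerivAt (fun t : ℝ => ((t, z) : R4)) (1, 0) r :=
    (hasDerivAt_id r).prodMk (hasDerivAt_const r z)
  exact h1.comp_hasDerivAt r h2

theorem derT {n : ℕ} {f : R4 → En n} (hf : ContDiff ℝ 1 f) (r : ℝ) (z : ℝ × ℝ) (θ : ℝ) :
    HasDerivAt (fun t : ℝ => f (r, t, z)) (fderiv ℝ f (r, θ, z) (0, 1, 0, 0)) θ := by
  have h1 : HasFDerivAt f (fderiv ℝ f (r, θ, z)) (r, θ, z) :=
    ((hf.differentiable (by norm_num)) (r, θ, z)).hasFDerivAt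
  have h2 : HasDerivAt (fun t : ℝ => ((r, t, z) : R4)) (0, 1, 0) θ :=
    (hasDerivAt_const θ r).prodMk ((hasDerivAt_id θ).prodMk (hasDerivAt_const θ z))
  exact h1.comp_hasDerivAt θ h2

/-- The packet `HOL`. -/
theorem goalHOL (h1 : G_OD1) (h2 : G_OD2) (h3 : G_OD3) (h4 : G_OD4) (hC : G_COM) : G_HOL := by
  intro m n ε b c D
  have cb : Continuous b := D.smb.continuous
  have cc : Continuous c := D.smc.continuous
  have exR : ∀ z : ℝ × ℝ × ℝ, ∃ U : ℝ → En n, U 0 = 1 ∧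
      ∀ t, HasDerivAt U (b (t, z) * U t) t := fun z =>
    h1 n (fun t => b (t, z)) (cb.comp (by fun_prop))
  have exT : ∀ z : ℝ × ℝ × ℝ, ∃ U : ℝ → En n, U 0 = 1 ∧
      ∀ t, HasDerivAt U (c (z.1, t, z.2) * U t) t := fun z =>
    h1 n (fun t => c (z.1, t, z.2)) (cc.comp (by fun_prop))
  choose UR hUR0 hURd using exR
  choose UT hUT0 hUTd using exT
  have keyR : ∀ z z' : ℝ × ℝ × ℝ, (∀ t, b (t, z) = b (t, z')) → ∀ t, UR z t = UR z' t := by
    intro z z' h t
    refine uniq h2 (cc := fun t => b (t, z')) (fun t => D.skb _) (hUR0 z') (hUR0 z) (hURd z')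
      (fun t => ?_) t
    have h5 := hURd z t
    rw [h t] at h5
    exact h5
  have keyT : ∀ z z' : ℝ × ℝ × ℝ, (∀ t, c (z.1, t, z.2) = c (z'.1, t, z'.2)) →
      ∀ t, UT z t = UT z' t := by
    intro z z' h t
    refine uniq h2 (cc := fun t => c (z'.1, t, z'.2)) (fun t => D.skc _) (hUT0 z') (hUT0 z)
      (hUTd z') (fun t => ?_) t
    have h5 := hUTd z t
    rw [h t] at h5
    exact h5
  have contR : Continuous fun z : (ℝ × ℝ × ℝ) × ℝ => UR z.1 z.2 :=
    h3 (ℝ × ℝ × ℝ) n (fun z => b (z.2, z.1)) (cb.comp (by fun_prop)) (fun z => D.skb _) UR hUR0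
      (fun l t => hURd l t)
  have contT : Continuous fun z : (ℝ × ℝ × ℝ) × ℝ => UT z.1 z.2 :=
    h3 (ℝ × ℝ × ℝ) n (fun z => c (z.1.1, z.2, z.1.2)) (cc.comp (by fun_prop))
      (fun z => D.skc _) UT hUT0 (fun l t => hUTd l t)
  have tr : IsTrans b c (fun x => UR x.2 x.1) (fun x => UT (x.1, x.2.2) x.2.1) :=
    { R0 := fun θ α β => hUR0 _
      T0 := fun r α β => hUT0 _
      dR := fun r θ α β => hURd (θ, α, β) r
      dT := fun r θ α β => hUTd (r, α, β) θ }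
  refine ⟨fun x => UR x.2 x.1, fun x => UT (x.1, x.2.2) x.2.1, ?_⟩
  refine
    { cε := D.smε.continuous
      cR := contR.comp (g := fun z : (ℝ × ℝ × ℝ) × ℝ => UR z.1 z.2)
        (f := fun x : R4 => (x.2, x.1)) (by fun_prop)
      cT := contT.comp (g := fun z : (ℝ × ℝ × ℝ) × ℝ => UT z.1 z.2)
        (f := fun x : R4 => ((x.1, x.2.2), x.2.1)) (by fun_prop)
      idem := D.idem
      symm := D.symm
      uR := fun x => (h2 n (fun t => b (t, x.2)) (UR x.2) (fun t => D.skb _) (hUR0 _)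
        (hURd x.2)).1 x.1
      uT := fun x => (h2 n (fun t => c (x.1, t, x.2.2)) (UT (x.1, x.2.2)) (fun t => D.skc _)
        (hUT0 _) (hUTd (x.1, x.2.2))).1 x.2.1
      R0 := tr.R0
      T0 := tr.T0
      iR := ?_
      iT := ?_
      perα := ?_
      perβ := ?_
      r0 := ?_
      r1 := ?_
      t0 := ?_
      t1 := ?_
      d0 := ?_
      d1 := ?_
      comm := ?_ }
  · intro r θ α β
    refine intertw h2 (cc := fun t => b (t, θ, α, β)) (U := UR (θ, α, β))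
      (e := fun t => ε (t, θ, α, β)) (fun t => D.skb _) (hUR0 _) (hURd _) (fun t => ?_) r
    have h5 := derR D.smε (θ, α, β) t
    rw [D.dr] at h5
    exact h5
  · intro r θ α β
    refine intertw h2 (cc := fun t => c (r, t, α, β)) (U := UT (r, α, β))
      (e := fun t => ε (r, t, α, β)) (fun t => D.skc _) (hUT0 _) (hUTd _) (fun t => ?_) θ
    have h5 := derT D.smε r (α, β) t
    rw [D.dt] at h5
    exact h5
  · intro r θ α β
    exact ⟨(D.perα r θ α β).1, keyR (θ, α + 2 * Real.pi, β) (θ, α, β)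
      (fun t => (D.perα t θ α β).2.1) r, keyT (r, α + 2 * Real.pi, β) (r, α, β)
      (fun t => (D.perα r t α β).2.2) θ⟩
  · intro r θ α β
    exact ⟨(D.perβ r θ α β).1, keyR (θ, α, β + 2 * Real.pi) (θ, α, β)
      (fun t => (D.perβ t θ α β).2.1) r, keyT (r, α, β + 2 * Real.pi) (r, α, β)
      (fun t => (D.perβ r t α β).2.2) θ⟩
  · intro θ α β
    exact ⟨(D.r0 θ α β).1, keyT (0, α, β) (0, 0, β) (fun t => (D.r0 t α β).2) θ⟩
  · intro θ α β
    exact ⟨(D.r1 θ α β).1, keyT (Real.pi / 2, α, β) (Real.pi / 2, 0, β - m * α)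
      (fun t => (D.r1 t α β).2) θ⟩
  · intro r α β
    exact ⟨(D.t0 r α β).1, keyR (0, α, β) (0, α, 0) (fun t => (D.t0 t α β).2) r⟩
  · intro r α β
    exact ⟨(D.t1 r α β).1, keyR (Real.pi, α, β) (Real.pi, α, 0) (fun t => (D.t1 t α β).2) r⟩
  · obtain ⟨D', hD, -⟩ := h4 n (fun z => b (z.2, 0, z.1, 0))
      (D.smb.comp (by fun_prop)) (fun z => D.skb _) (fun l => UR (0, l, 0)) (fun l => hUR0 _)
      (fun l t => hURd (0, l, 0) t)
    exact (hD 0 (Real.pi / 2)).differentiableAt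
  · obtain ⟨D', hD, -⟩ := h4 n (fun z => b (z.2, Real.pi, z.1, 0))
      (D.smb.comp (by fun_prop)) (fun z => D.skb _) (fun l => UR (Real.pi, l, 0))
      (fun l => hUR0 _) (fun l t => hURd (Real.pi, l, 0) t)
    exact (hD 0 (Real.pi / 2)).differentiableAt
  · intro r θ α β
    have h5 := hC m n ε b c _ _ D tr r θ α β
    have h6 : ε (0, 0, α, β) = ε (0, 0, 0, 0) :=
      ((D.r0 0 α β).1).trans ((D.t0 0 0 β).1)
    rw [h6] at h5
    exact h5

end Pool.Agent.Helper23.QS
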